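import Mathlib

namespace Pool.Agent.Lib.MP_ab14aa_co

/-- The Euclidean plane. -/
abbrev Plane := EuclideanSpace ℝ (Fin 2)

/-- `p 0, p 1, …, p (n-1)` are, in this (counterclockwise) cyclic order, the vertices of a strictly
convex polygon: every triple `i < j < k` is positively oriented. -/
def StrictlyConvex {n : ℕ} (p : Fin n → Plane) : Prop :=
  ∀ i j k : Fin n, i < j → j < k →
    0 < (p j 0 - p i 0) * (p k 1 - p i 1) - (p j 1 - p i 1) * (p k 0 - p i 0)

/-- The bar framework `(G, p)` is flexible: a continuous motion starting at `p` keeps every bar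
length and reaches a position that is not the image of `p` under an isometry of the plane. -/
def Flexible {n : ℕ} (G : SimpleGraph (Fin n)) (p : Fin n → Plane) : Prop :=
  ∃ q : unitInterval → Fin n → Plane, Continuous q ∧ q 0 = p ∧
    (∀ t u w, G.Adj u w → dist (q t u) (q t w) = dist (p u) (p w)) ∧
    ∃ t, ¬ ∃ f : Plane ≃ᵢ Plane, ∀ v, q t v = f (p v)

/-- `G` is generically rigid in the plane: `(G, p)` is rigid whenever the `2n` coordinates of `p`
are algebraically independent over `ℚ`. -/
def GenericallyRigid {n : ℕ} (G : SimpleGraph (Fin n)) : Prop :=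
  ∀ p : Fin n → Plane, AlgebraicIndependent ℚ (fun x : Fin n × Fin 2 => p x.1 x.2) →
    ¬ Flexible G p

end Pool.Agent.Lib.MP_ab14aa_co
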