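import Pool.Agent.Lib.MP_ab14aa_co.Graph

namespace Pool.Agent.Lib.MP_ab14aa_co

open Filter Topology

theorem exists_path {n : ℕ} (Φ : (Fin n → ℝ) → (Fin n → ℝ)) (z0 w : Fin n → ℝ)
    (D : (Fin n → ℝ) →L[ℝ] (Fin n → ℝ)) (hD : HasStrictFDerivAt Φ D z0)
    (hinj : ∀ h, D h = 0 → h = 0) :
    ∃ ε : ℝ, 0 < ε ∧ ∃ z : unitInterval → Fin n → ℝ, Continuous z ∧ z 0 = z0 ∧
      ∀ t : unitInterval, Φ (z t) = Φ z0 + ((t : ℝ) * ε) • w := by
  have hinj' : Function.Injective (D : (Fin n → ℝ) →ₗ[ℝ] (Fin n → ℝ)) :=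
    (injective_iff_map_eq_zero _).2 hinj
  let e : (Fin n → ℝ) ≃L[ℝ] (Fin n → ℝ) :=
    (LinearEquiv.ofInjectiveEndo (D : (Fin n → ℝ) →ₗ[ℝ] (Fin n → ℝ)) hinj').toContinuousLinearEquiv
  have he : (e : (Fin n → ℝ) →L[ℝ] (Fin n → ℝ)) = D := by
    ext h i; simp [e]
  have hD' : HasStrictFDerivAt Φ (e : (Fin n → ℝ) →L[ℝ] (Fin n → ℝ)) z0 := he ▸ hD
  let H := hD'.toOpenPartialHomeomorph Φ
  have hz0 : z0 ∈ H.source := hD'.mem_toOpenPartialHomeomorph_source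
  have hH : ∀ z, H z = Φ z := fun z => by simp [H]
  have htar : H.target ∈ 𝓝 (Φ z0) := H.open_target.mem_nhds (by rw [← hH]; exact H.map_source hz0)
  have hline : Continuous fun s : ℝ => Φ z0 + s • w := by fun_prop
  have hev : ∀ᶠ s in 𝓝 (0 : ℝ), Φ z0 + s • w ∈ H.target := by
    apply hline.continuousAt.eventually_mem
    simpa using htar
  obtain ⟨δ, hδ, hball⟩ := Metric.eventually_nhds_iff.1 hev
  have hmem : ∀ t : unitInterval, Φ z0 + ((t : ℝ) * (δ / 2)) • w ∈ H.target := by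
    intro t
    apply hball
    have h0 := t.2.1
    have h1 := t.2.2
    rw [Real.dist_eq, sub_zero, abs_of_nonneg (by positivity)]
    nlinarith
  refine ⟨δ / 2, by positivity, fun t => H.symm (Φ z0 + ((t : ℝ) * (δ / 2)) • w), ?_, ?_, ?_⟩
  · apply H.continuousOn_symm.comp_continuous _ hmem
    fun_prop
  · simp only [Set.Icc.coe_zero, zero_mul, zero_smul, add_zero]
    rw [← hH]; exact H.left_inv hz0
  · intro t
    rw [← hH]; exact H.right_inv (hmem t)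

def Phi (z : Fin 12 → ℝ) : Fin 12 → ℝ :=
  ![z 0, z 0 * z 2, z 1 * z 3, z 0 ^ 2 + z 1 ^ 2 + z 2 ^ 2 + z 3 ^ 2,
    (z 4 - z 2) ^ 2 + (z 5 - z 3) ^ 2, (z 4 - z 6) ^ 2 + (z 5 - z 7) ^ 2,
    (z 6 + z 2) ^ 2 + (z 7 - z 3) ^ 2, (z 8 + z 0) ^ 2 + (z 9 - z 1) ^ 2,
    (z 8 - z 10) ^ 2 + (z 9 - z 11) ^ 2, (z 10 + z 0) ^ 2 + (z 11 + z 1) ^ 2,
    (z 4 - z 8) ^ 2 + (z 5 - z 9) ^ 2, (z 6 - z 10) ^ 2 + (z 7 - z 11) ^ 2]

def z0 : Fin 12 → ℝ := ![5, 3, 3, 5, 1, 6, -1, 6, -6, 1, -6, -1]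

lemma Phi_contDiff : ContDiff ℝ 1 Phi := by
  rw [contDiff_pi]
  intro i
  fin_cases i <;> simp [Phi] <;> fun_prop

lemma Phi_quad (h : Fin 12 → ℝ) (t : ℝ) :
    Phi (z0 + t • h) = Phi z0 + t • ((1 / 2 : ℝ) • (Phi (z0 + h) - Phi (z0 - h))) +
      t ^ 2 • ((1 / 2 : ℝ) • (Phi (z0 + h) + Phi (z0 - h)) - Phi z0) := by
  funext i
  fin_cases i <;> simp [Phi] <;> ring

lemma fderiv_Phi (h : Fin 12 → ℝ) :
    fderiv ℝ Phi z0 h = (1 / 2 : ℝ) • (Phi (z0 + h) - Phi (z0 - h)) := by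
  have hd : HasFDerivAt Phi (fderiv ℝ Phi z0) (z0 + (0 : ℝ) • h) := by
    simpa using (Phi_contDiff.differentiable one_ne_zero z0).hasFDerivAt
  have hl : HasDerivAt (fun t : ℝ => z0 + t • h) h 0 := by
    simpa using ((hasDerivAt_id (0 : ℝ)).smul_const h).const_add z0
  have h1 : HasDerivAt (fun t : ℝ => Phi (z0 + t • h)) (fderiv ℝ Phi z0 h) 0 :=
    HasFDerivAt.comp_hasDerivAt (l := Phi) (f := fun t : ℝ => z0 + t • h) (0 : ℝ) hd hl
  have h2 : HasDerivAt (fun t : ℝ => Phi (z0 + t • h))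
      ((1 / 2 : ℝ) • (Phi (z0 + h) - Phi (z0 - h))) 0 := by
    simp only [Phi_quad]
    have a1 := ((hasDerivAt_id (0 : ℝ)).smul_const
      ((1 / 2 : ℝ) • (Phi (z0 + h) - Phi (z0 - h)))).const_add (Phi z0)
    have a2 := ((hasDerivAt_id (0 : ℝ)).pow 2).smul_const
      ((1 / 2 : ℝ) • (Phi (z0 + h) + Phi (z0 - h)) - Phi z0)
    have a3 := a1.add a2
    simp only [id, Nat.cast_ofNat, one_smul, Nat.add_one_sub_one, pow_one, mul_zero, zero_mul,
      zero_smul, add_zero] at a3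
    exact a3
  exact h1.unique h2

lemma fderiv_inj (h : Fin 12 → ℝ) (h0 : fderiv ℝ Phi z0 h = 0) : h = 0 := by
  rw [fderiv_Phi] at h0
  have e := fun i => congrFun h0 i
  have a0 := e 0; have a1 := e 1; have a2 := e 2; have a3 := e 3
  have a4 := e 4; have a5 := e 5; have a6 := e 6; have a7 := e 7
  have a8 := e 8; have a9 := e 9; have a10 := e 10; have a11 := e 11
  simp only [Phi, z0, Pi.smul_apply, Pi.sub_apply, Pi.add_apply, Pi.zero_apply, smul_eq_mul,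
    Matrix.cons_val] at a0 a1 a2 a3 a4 a5 a6 a7 a8 a9 a10 a11
  ring_nf at a0 a1 a2 a3 a4 a5 a6 a7 a8 a9 a10 a11
  funext i
  fin_cases i <;> simp <;> linarith

noncomputable def conf (z : Fin 12 → ℝ) : Fin 10 → Plane :=
  ![!₂[z 0, z 1], !₂[z 2, z 3], !₂[z 4, z 5], !₂[z 6, z 7], !₂[-z 2, z 3], !₂[-z 0, z 1],
    !₂[z 8, z 9], !₂[z 10, z 11], !₂[-z 0, -z 1], !₂[-z 2, -z 3]]

lemma conf_cont : Continuous conf := by
  apply continuous_pi
  intro v
  fin_cases v <;> simp [conf] <;> fun_prop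

def X0 : Fin 10 → ℤ := ![5, 3, 1, -1, -3, -5, -6, -6, -5, -3]
def Y0 : Fin 10 → ℤ := ![3, 5, 6, 6, 5, 3, 1, -1, -3, -5]

lemma conf_X (i : Fin 10) : conf z0 i 0 = (X0 i : ℝ) := by
  fin_cases i <;> simp [conf, z0, X0]

lemma conf_Y (i : Fin 10) : conf z0 i 1 = (Y0 i : ℝ) := by
  fin_cases i <;> simp [conf, z0, Y0]

lemma int_convex : ∀ i j k : Fin 10, i < j → j < k →
    0 < (X0 j - X0 i) * (Y0 k - Y0 i) - (Y0 j - Y0 i) * (X0 k - X0 i) := by decide +kernel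

lemma conf_convex : StrictlyConvex (conf z0) := by
  intro i j k hij hjk
  simp only [conf_X, conf_Y]
  exact_mod_cast int_convex i j k hij hjk

theorem conf_flexible : Flexible G10 (conf z0) := by
  obtain ⟨ε, hε, z, hz, hz0, hΦ⟩ := exists_path Phi z0 (Pi.single 0 1) (fderiv ℝ Phi z0)
    (Phi_contDiff.contDiffAt.hasStrictFDerivAt one_ne_zero) fderiv_inj
  refine ⟨fun t => conf (z t), conf_cont.comp hz, by simp [hz0], ?_, 1, ?_⟩
  · intro t
    have e := fun i => congrFun (hΦ t) i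
    have a1 := e 1; have a2 := e 2; have a3 := e 3
    have a4 := e 4; have a5 := e 5; have a6 := e 6; have a7 := e 7
    have a8 := e 8; have a9 := e 9; have a10 := e 10; have a11 := e 11
    simp [Phi, z0] at a1 a2 a3 a4 a5 a6 a7 a8 a9 a10 a11
    have key : ∀ u w, (u, w) ∈ edges →
        dist (conf (z t) u) (conf (z t) w) = dist (conf z0 u) (conf z0 w) := by
      intro u w huw
      apply dist_eq_of_sq
      simp only [edges, List.mem_cons, Prod.mk.injEq, List.not_mem_nil, or_false] at huw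
      rcases huw with h | h | h | h | h | h | h | h | h | h | h | h | h | h | h | h | h <;>
        obtain ⟨rfl, rfl⟩ := h <;> simp [conf, z0] <;> linarith
    rintro u w (h | h)
    · exact key u w h
    · rw [dist_comm, key w u h, dist_comm]
  · rintro ⟨f, hf⟩
    have h1 : dist (conf (z 1) 0) (conf (z 1) 5) = dist (conf z0 0) (conf z0 5) := by
      have a := hf 0
      have b := hf 5
      simp only at a b
      rw [a, b, f.dist_eq]
    have h2 := sq_of_dist_eq h1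
    have a0 := congrFun (hΦ 1) 0
    simp [Phi, z0] at a0
    simp [conf, z0, a0] at h2
    nlinarith

end Pool.Agent.Lib.MP_ab14aa_co
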