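import Pool.Agent.Lib.MP_ab14aa_co.Rigid

namespace Pool.Agent.Lib.MP_ab14aa_co

open Matrix

def edges : List (Fin 10 × Fin 10) :=
  [(0, 1), (1, 2), (2, 3), (3, 4), (4, 5), (5, 6), (6, 7), (7, 8), (8, 9), (9, 0),
   (0, 4), (1, 5), (5, 9), (1, 8), (4, 8), (2, 6), (3, 7)]

def G10 : SimpleGraph (Fin 10) where
  Adj u v := (u, v) ∈ edges ∨ (v, u) ∈ edges
  symm := ⟨fun _ _ h => h.symm⟩
  loopless := ⟨by decide⟩

instance : DecidableRel G10.Adj := fun u v =>
  inferInstanceAs (Decidable ((u, v) ∈ edges ∨ (v, u) ∈ edges))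

lemma cycle_le : SimpleGraph.cycleGraph 10 ≤ G10 := by
  intro u v
  revert u v
  decide

def nb : Fin 10 → List (Fin 10) :=
  ![[1, 9, 4], [0, 2, 5, 8], [1, 3, 6], [2, 4, 7], [3, 5, 0, 8], [4, 6, 1, 9], [5, 7, 2], [6, 8, 3],
    [7, 9, 1, 4], [8, 0, 5]]

lemma nb_adj : ∀ u v, v ∈ nb u → G10.Adj u v := by decide

def reach (a b : Fin 10) (r : Fin 10) : ℕ → Fin 10 → Bool
  | 0, v => v == r
  | k + 1, v => reach a b r k v || (v != a && v != b && (nb v).any (fun u => reach a b r k u))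

def root (a b : Fin 10) : Fin 10 :=
  if a ≠ 4 ∧ b ≠ 4 then 4 else if a ≠ 1 ∧ b ≠ 1 then 1 else 5

lemma root_ne : ∀ a b, root a b ≠ a ∧ root a b ≠ b := by decide

lemma reach_all : ∀ a b v, v ≠ a → v ≠ b → reach a b (root a b) 4 v = true := by decide +kernel

lemma reach_sound (a b r : Fin 10) (hr : r ∈ ({a, b} : Set (Fin 10))ᶜ) :
    ∀ k v, reach a b r k v = true → ∃ hv : v ∈ ({a, b} : Set (Fin 10))ᶜ,
      (G10.induce ({a, b} : Set (Fin 10))ᶜ).Reachable ⟨v, hv⟩ ⟨r, hr⟩ := by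
  intro k
  induction k with
  | zero =>
    intro v h
    simp only [reach, beq_iff_eq] at h
    subst h
    exact ⟨hr, SimpleGraph.Reachable.refl _⟩
  | succ k ih =>
    intro v h
    simp only [reach, Bool.or_eq_true, Bool.and_eq_true, bne_iff_ne, List.any_eq_true] at h
    rcases h with h | ⟨⟨ha, hb⟩, u, hu, h⟩
    · exact ih v h
    · obtain ⟨hu', hreach⟩ := ih u h
      have hv : v ∈ ({a, b} : Set (Fin 10))ᶜ := by simp [ha, hb]
      refine ⟨hv, SimpleGraph.Reachable.trans (SimpleGraph.Adj.reachable ?_) hreach⟩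
      exact nb_adj v u hu

lemma three_conn (a b : Fin 10) : (G10.induce ({a, b} : Set (Fin 10))ᶜ).Connected := by
  have hr : root a b ∈ ({a, b} : Set (Fin 10))ᶜ := by simpa using root_ne a b
  rw [SimpleGraph.connected_iff_exists_forall_reachable]
  refine ⟨⟨_, hr⟩, fun ⟨v, hv⟩ => ?_⟩
  have hv' : v ≠ a ∧ v ≠ b := by simpa using hv
  obtain ⟨_, h⟩ := reach_sound a b _ hr 4 v (reach_all a b v hv'.1 hv'.2)
  exact h.symm

def rowEdge : Fin 10 × Fin 2 → Fin 10 × Fin 10 := fun r =>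
  ![![(0, 1), (0, 1)], ![(0, 1), (0, 1)], ![(1, 2), (2, 3)], ![(3, 4), (4, 5)], ![(5, 6), (6, 7)],
    ![(7, 8), (8, 9)], ![(9, 0), (0, 4)], ![(1, 5), (5, 9)], ![(1, 8), (4, 8)],
    ![(2, 6), (3, 7)]] r.1 r.2

lemma rowEdge_adj : ∀ r, G10.Adj (rowEdge r).1 (rowEdge r).2 := by decide

def RM {R : Type} [CommRing R] (m : Fin 10 × Fin 2 → R) :
    Matrix (Fin 10 × Fin 2) (Fin 10 × Fin 2) R := fun r c =>
  if r.1 < 2 then (if c = r then 1 else 0)
  else ((if c.1 = (rowEdge r).1 then 1 else 0) - (if c.1 = (rowEdge r).2 then 1 else 0)) *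
    (m ((rowEdge r).1, c.2) - m ((rowEdge r).2, c.2))

lemma RM_mulVec {R : Type} [CommRing R] (m w : Fin 10 × Fin 2 → R) (r : Fin 10 × Fin 2) :
    (RM m *ᵥ w) r = if r.1 < 2 then w r else
      (m ((rowEdge r).1, 0) - m ((rowEdge r).2, 0)) * (w ((rowEdge r).1, 0) - w ((rowEdge r).2, 0)) +
      (m ((rowEdge r).1, 1) - m ((rowEdge r).2, 1)) * (w ((rowEdge r).1, 1) - w ((rowEdge r).2, 1)) := by
  unfold RM Matrix.mulVec dotProduct
  by_cases h : r.1 < 2
  · simp [h]
  · simp only [if_neg h]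
    rw [Fintype.sum_prod_type_right]
    simp only [Fin.sum_univ_two, sub_mul, Finset.sum_sub_distrib, ite_mul, one_mul, zero_mul,
      Finset.sum_ite_eq', Finset.mem_univ, if_true]
    ring

lemma RM_map {R S : Type} [CommRing R] [CommRing S] (f : R →+* S) (m : Fin 10 × Fin 2 → R) :
    (RM m).map f = RM (fun x => f (m x)) := by
  ext r c
  simp only [RM, Matrix.map_apply]
  split_ifs <;> simp

def m0 : Fin 10 × Fin 2 → ℚ := fun x =>
  ![![2, 2], ![1, 2], ![1, 0], ![1, 2], ![0, 2], ![0, 1], ![2, 0], ![2, 2], ![2, 0], ![2, 1]] x.1 x.2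

lemma det_m0 : (RM m0).det ≠ 0 := by
  intro h
  obtain ⟨w, hw, h0⟩ := Matrix.exists_mulVec_eq_zero_iff.2 h
  apply hw
  have e : ∀ r, (RM m0 *ᵥ w) r = 0 := fun r => by rw [h0]; rfl
  simp only [RM_mulVec] at e
  have a0 := e (0, 0); have a1 := e (0, 1); have b0 := e (1, 0); have b1 := e (1, 1)
  have c0 := e (2, 0); have c1 := e (2, 1); have d0 := e (3, 0); have d1 := e (3, 1)
  have e0 := e (4, 0); have e1 := e (4, 1); have f0 := e (5, 0); have f1 := e (5, 1)
  have g0 := e (6, 0); have g1 := e (6, 1); have h0 := e (7, 0); have h1 := e (7, 1)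
  have i0 := e (8, 0); have i1 := e (8, 1); have j0 := e (9, 0); have j1 := e (9, 1)
  simp [rowEdge, m0, -mul_eq_zero] at a0 a1 b0 b1 c0 c1 d0 d1 e0 e1 f0 f1 g0 g1 h0 h1 i0 i1 j0 j1
  funext ⟨v, i⟩
  fin_cases v <;> fin_cases i <;> simp <;> linarith

theorem generic_rigid : GenericallyRigid G10 := by
  intro p hp
  have hdet : (RM (fun x : Fin 10 × Fin 2 => p x.1 x.2)).det ≠ 0 := by
    intro h
    let P : MvPolynomial (Fin 10 × Fin 2) ℚ := (RM (fun x => MvPolynomial.X x)).det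
    have h1 : MvPolynomial.aeval (fun x : Fin 10 × Fin 2 => p x.1 x.2) P = 0 := by
      have := (MvPolynomial.aeval (R := ℚ) (fun x : Fin 10 × Fin 2 => p x.1 x.2)).toRingHom.map_det
        (RM (fun x => MvPolynomial.X x))
      rw [RingHom.mapMatrix_apply, RM_map] at this
      simp only [AlgHom.toRingHom_eq_coe, RingHom.coe_coe, MvPolynomial.aeval_X] at this
      rw [← h, ← this]
    have h2 : P = 0 := (algebraicIndependent_iff.1 hp) P h1
    have h3 := (MvPolynomial.eval m0).map_det (RM (fun x => MvPolynomial.X x))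
    rw [RingHom.mapMatrix_apply, RM_map] at h3
    simp only [MvPolynomial.eval_X] at h3
    apply det_m0
    rw [← h3]
    change MvPolynomial.eval m0 P = 0
    rw [h2]; simp
  have hne : p 0 ≠ p 1 := by
    intro h
    have := hp.injective (a₁ := (0, 0)) (a₂ := (1, 0)) (by simp [h])
    simp at this
  refine not_flexible_of_pinned G10 p 0 1 (by decide) hne (fun m => (RM m).det) ?_ hdet ?_
  · apply Continuous.matrix_det
    apply continuous_matrix
    intro r c
    simp only [RM]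
    split_ifs <;> fun_prop
  · intro m w hm h00 h01 h10 h11 hedge
    by_contra hw
    apply hm
    apply Matrix.exists_mulVec_eq_zero_iff.1
    refine ⟨w, hw, ?_⟩
    funext r
    rw [RM_mulVec]
    split_ifs with h
    · obtain ⟨v, i⟩ := r
      fin_cases v <;> fin_cases i <;> simp_all
    · exact hedge _ _ (rowEdge_adj r)

end Pool.Agent.Lib.MP_ab14aa_co
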