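import Pool.Agent.Lib.MP_ab14aa_co.Defs

namespace Pool.Agent.Lib.MP_ab14aa_co

lemma dist_sq (a b : Plane) : dist a b ^ 2 = (a 0 - b 0) ^ 2 + (a 1 - b 1) ^ 2 := by
  rw [EuclideanSpace.dist_eq, Real.sq_sqrt (by positivity)]
  simp [Fin.sum_univ_two, Real.dist_eq, sq_abs]

lemma dist_eq_of_sq {a b c d : Plane}
    (h : (a 0 - b 0) ^ 2 + (a 1 - b 1) ^ 2 = (c 0 - d 0) ^ 2 + (c 1 - d 1) ^ 2) :
    dist a b = dist c d := by
  rw [← dist_sq, ← dist_sq] at h
  exact (pow_left_inj₀ dist_nonneg dist_nonneg two_ne_zero).1 h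

lemma sq_of_dist_eq {a b c d : Plane} (h : dist a b = dist c d) :
    (a 0 - b 0) ^ 2 + (a 1 - b 1) ^ 2 = (c 0 - d 0) ^ 2 + (c 1 - d 1) ^ 2 := by
  rw [← dist_sq, ← dist_sq, h]

lemma exists_iso (c s a0 a1 b0 b1 : ℝ) (h : c ^ 2 + s ^ 2 = 1) :
    ∃ f : Plane ≃ᵢ Plane, ∀ w : Plane, f w 0 = b0 + c * (w 0 - a0) + s * (w 1 - a1) ∧
      f w 1 = b1 - s * (w 0 - a0) + c * (w 1 - a1) := by
  let e : Plane ≃ Plane :=
    { toFun := fun w => !₂[b0 + c * (w 0 - a0) + s * (w 1 - a1), b1 - s * (w 0 - a0) + c * (w 1 - a1)]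
      invFun := fun w => !₂[a0 + c * (w 0 - b0) - s * (w 1 - b1), a1 + s * (w 0 - b0) + c * (w 1 - b1)]
      left_inv := by
        intro w; ext i; fin_cases i
        · simp; linear_combination (w 0 - a0) * h
        · simp; linear_combination (w 1 - a1) * h
      right_inv := by
        intro w; ext i; fin_cases i
        · simp; linear_combination (w 0 - b0) * h
        · simp; linear_combination (w 1 - b1) * h }
  have he : Isometry e := by
    apply Isometry.of_dist_eq
    intro u w
    apply dist_eq_of_sq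
    simp [e]
    linear_combination ((u 0 - w 0) ^ 2 + (u 1 - w 1) ^ 2) * h
  exact ⟨⟨e, he⟩, fun w => ⟨by simp [e], by simp [e]⟩⟩

theorem not_flexible_of_pinned {n : ℕ} (G : SimpleGraph (Fin n)) (p : Fin n → Plane)
    (a b : Fin n) (hab : G.Adj a b) (hne : p a ≠ p b)
    (D : (Fin n × Fin 2 → ℝ) → ℝ) (hD : Continuous D) (hp : D (fun x => p x.1 x.2) ≠ 0)
    (hker : ∀ m w : Fin n × Fin 2 → ℝ, D m ≠ 0 → w (a, 0) = 0 → w (a, 1) = 0 → w (b, 0) = 0 →
      w (b, 1) = 0 →
      (∀ u v, G.Adj u v → (m (u, 0) - m (v, 0)) * (w (u, 0) - w (v, 0)) +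
        (m (u, 1) - m (v, 1)) * (w (u, 1) - w (v, 1)) = 0) → w = 0) :
    ¬ Flexible G p := by
  rintro ⟨q, hq, hq0, hlen, t1, ht1⟩
  apply ht1
  set L : ℝ := (p b 0 - p a 0) ^ 2 + (p b 1 - p a 1) ^ 2 with hL
  have hLpos : 0 < L := by
    rw [hL, ← dist_sq]
    exact pow_pos (dist_pos.2 hne.symm) 2
  have hqL : ∀ t, (q t b 0 - q t a 0) ^ 2 + (q t b 1 - q t a 1) ^ 2 = L := fun t =>
    sq_of_dist_eq (hlen t b a hab.symm)
  let c : unitInterval → ℝ := fun t =>
    ((p b 0 - p a 0) * (q t b 0 - q t a 0) + (p b 1 - p a 1) * (q t b 1 - q t a 1)) / L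
  let s : unitInterval → ℝ := fun t =>
    ((q t b 0 - q t a 0) * (p b 1 - p a 1) - (q t b 1 - q t a 1) * (p b 0 - p a 0)) / L
  have hcs : ∀ t, c t ^ 2 + s t ^ 2 = 1 := by
    intro t
    simp only [c, s]
    field_simp
    have := hqL t
    linear_combination ((p b 0 - p a 0) ^ 2 + (p b 1 - p a 1) ^ 2) * this - L * hL
  let r : unitInterval → Fin n × Fin 2 → ℝ := fun t x =>
    if x.2 = 0 then p a 0 + c t * (q t x.1 0 - q t a 0) - s t * (q t x.1 1 - q t a 1)
    else p a 1 + s t * (q t x.1 0 - q t a 0) + c t * (q t x.1 1 - q t a 1)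
  have hr0 : ∀ t v, r t (v, 0) =
      p a 0 + c t * (q t v 0 - q t a 0) - s t * (q t v 1 - q t a 1) := fun t v => by simp [r]
  have hr1 : ∀ t v, r t (v, 1) =
      p a 1 + s t * (q t v 0 - q t a 0) + c t * (q t v 1 - q t a 1) := fun t v => by simp [r]
  have hqc : ∀ v i, Continuous fun t => q t v i := fun v i => by fun_prop
  have hcc : Continuous c := by
    simp only [c]
    have := hqc b 0; have := hqc b 1; have := hqc a 0; have := hqc a 1
    fun_prop
  have hsc : Continuous s := by
    simp only [s]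
    have := hqc b 0; have := hqc b 1; have := hqc a 0; have := hqc a 1
    fun_prop
  have hrc : Continuous r := by
    apply continuous_pi
    rintro ⟨v, i⟩
    have := hqc v 0; have := hqc v 1; have := hqc a 0; have := hqc a 1
    fin_cases i
    · simp only [Fin.zero_eta, hr0]; fun_prop
    · simp only [Fin.mk_one, hr1]; fun_prop
  set P : Fin n × Fin 2 → ℝ := fun x => p x.1 x.2 with hP
  have hstart : r 0 = P := by
    have hc0 : c 0 = 1 := by
      simp only [c, hq0]; field_simp; linear_combination -hL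
    have hs0 : s 0 = 0 := by
      simp only [s, hq0]; field_simp; ring
    funext ⟨v, i⟩
    fin_cases i
    · simp only [Fin.zero_eta, hr0, hc0, hs0, hq0, hP]; ring
    · simp only [Fin.mk_one, hr1, hc0, hs0, hq0, hP]; ring
  have hstep : ∀ t, D (fun x => (r t x + P x) / 2) ≠ 0 → r t = P := by
    intro t ht
    have := hker _ (fun x => r t x - P x) ht ?_ ?_ ?_ ?_ ?_
    · funext x
      have := congrFun this x
      simp only [Pi.zero_apply] at this
      linarith
    · simp [hr0, hP]
    · simp [hr1, hP]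
    · simp only [hr0, hP, c, s]
      field_simp
      linear_combination (p b 0 - p a 0) * hqL t
    · simp only [hr1, hP, c, s]
      field_simp
      linear_combination (p b 1 - p a 1) * hqL t
    · intro u v huv
      have h1 := sq_of_dist_eq (hlen t u v huv)
      simp only [hr0, hr1, hP]
      linear_combination (1 / 2) * h1 +
        (1 / 2) * ((q t u 0 - q t v 0) ^ 2 + (q t u 1 - q t v 1) ^ 2) * hcs t
  have hclopen : IsClopen {t | r t = P} := by
    refine ⟨isClosed_eq hrc continuous_const, ?_⟩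
    rw [isOpen_iff_mem_nhds]
    intro t ht
    have hcont : Continuous fun t => D (fun x => (r t x + P x) / 2) := by
      apply hD.comp
      apply continuous_pi
      intro x
      have : Continuous fun t => r t x := (continuous_apply x).comp hrc
      fun_prop
    have hne' : D (fun x => (r t x + P x) / 2) ≠ 0 := by
      have : (fun x => (r t x + P x) / 2) = P := by
        funext x
        have : r t = P := ht
        rw [this]; ring
      rw [this]; exact hp
    filter_upwards [hcont.continuousAt.eventually_ne hne'] with t' ht'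
    exact hstep t' ht'
  have hall : r t1 = P := by
    have : {t | r t = P} = Set.univ := hclopen.eq_univ ⟨0, hstart⟩
    have h2 : t1 ∈ {t | r t = P} := by rw [this]; trivial
    exact h2
  obtain ⟨f, hf⟩ := exists_iso (c t1) (s t1) (p a 0) (p a 1) (q t1 a 0) (q t1 a 1) (hcs t1)
  refine ⟨f, fun v => ?_⟩
  have e0 := congrFun hall (v, 0)
  have e1 := congrFun hall (v, 1)
  rw [hr0] at e0
  rw [hr1] at e1
  simp only [hP] at e0 e1
  ext i
  fin_cases i
  · simp only [Fin.zero_eta, (hf (p v)).1]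
    linear_combination c t1 * e0 + s t1 * e1 - (q t1 v 0 - q t1 a 0) * hcs t1
  · simp only [Fin.mk_one, (hf (p v)).2]
    linear_combination c t1 * e1 - s t1 * e0 - (q t1 v 1 - q t1 a 1) * hcs t1

end Pool.Agent.Lib.MP_ab14aa_co
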